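import Pool.Agent.LgpF.Fin

/-!
# Almost periodic points with a finite image in the `m`-adic integers: the theorem
-/

namespace Pool.Agent.LgpF

open Pool.Agent.CTm Pool.Agent.Grm Pool.Agent.Lgp Pool.Agent.LgpE Filter Nat

variable {y : ℕ → ℤ}

/-- if all prime factors of `u` divide `m` then `u` divides a power of `m` -/
theorem dvd_pow_self {u m : ℕ} (hu : 0 < u) (hm : 0 < m) (h : ∀ p : ℕ, p.Prime → p ∣ u → p ∣ m) :
    u ∣ m ^ u := by
  rw [← Nat.factorization_le_iff_dvd hu.ne' (Nat.pow_pos hm).ne']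
  intro p
  rw [Nat.factorization_pow]
  by_cases hp : p.Prime
  · by_cases hpu : p ∣ u
    · have h1 : 1 ≤ m.factorization p := (Nat.Prime.dvd_iff_one_le_factorization hp hm.ne').1 (h p hp hpu)
      have h2 : u.factorization p < u := Nat.factorization_lt p hu.ne'
      show u.factorization p ≤ u * m.factorization p
      nlinarith
    · rw [Nat.factorization_eq_zero_of_not_dvd hpu]
      exact Nat.zero_le _
  · rw [Nat.factorization_eq_zero_of_not_prime _ hp]
    exact Nat.zero_le _

/-- a prime factor of the numerator or of the denominator is seen by the valuation -/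
theorem val_ne_zero {p : ℕ} (hp : p.Prime) {r : ℚ} (hr : 0 < r) (h : p ∣ r.num.natAbs ∨ p ∣ r.den) :
    padicValRat p r ≠ 0 := by
  have : Fact p.Prime := ⟨hp⟩
  have hcop := r.reduced
  have hnum : r.num.natAbs ≠ 0 := by
    rw [Int.natAbs_ne_zero]
    exact (Rat.num_pos.2 hr).ne'
  rw [padicValRat, padicValInt]
  rcases h with h | h
  · have h3 : ¬ p ∣ r.den := fun h4 => hp.one_lt.ne' (Nat.eq_one_of_dvd_coprimes hcop h h4)
    rw [padicValNat.eq_zero_of_not_dvd h3]
    have h5 := one_le_padicValNat_of_dvd hnum h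
    omega
  · have h3 : ¬ p ∣ r.num.natAbs := fun h4 => hp.one_lt.ne' (Nat.eq_one_of_dvd_coprimes hcop h4 h)
    rw [padicValNat.eq_zero_of_not_dvd h3]
    have h5 := one_le_padicValNat_of_dvd r.den_nz h
    omega

/-- **Theorem.** `y` is almost periodic and its orbit has a finite image in the `m`-adic integers for one `m ≥ 2`:
the germs along the orbit of `y` form a virtually abelian groupoid. -/
theorem locAb_of_finKey (S : Finset (Equiv.Perm ℤ)) (hS : ∀ s ∈ S, s ∈ CT) (hy : Pro y)
    (hU : ∀ j : ℕ, ∃ F : Finset (Equiv.Perm ℤ),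
      (∀ t ∈ F, t ∈ Subgroup.closure (S : Set (Equiv.Perm ℤ))) ∧
      ∀ g ∈ Subgroup.closure (S : Set (Equiv.Perm ℤ)), ∃ t ∈ F, ∃ i : ℕ, ∀ n : ℤ,
        ((i ! : ℕ) : ℤ) ∣ n - y i → ((j ! : ℕ) : ℤ) ∣ t (g n) - y j)
    {m : ℕ} (hm : 2 ≤ m) (h : FinKey m (Subgroup.closure (S : Set (Equiv.Perm ℤ))) y) :
    LocAb (Subgroup.closure (S : Set (Equiv.Perm ℤ))) y := by
  classical
  set H := Subgroup.closure (S : Set (Equiv.Perm ℤ)) with hH
  obtain ⟨M, A, hd⟩ := Pool.Agent.Grm.exists_data S hS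
  have hgerm : ∀ g : Equiv.Perm ℤ, ∃ a : ℚ × ℚ, g ∈ H → 0 < a.1 ∧ Germ y g a := by
    intro g
    by_cases hg : g ∈ H
    · obtain ⟨a, ha⟩ := exists_germ hd hy hg
      exact ⟨a, fun _ => ha⟩
    · exact ⟨(1, 0), fun h => absurd h hg⟩
  choose a ha using hgerm
  obtain ⟨α, hα, key, hkey⟩ := h
  have hfin : FinKey m H y := ⟨α, hα, key, hkey⟩
  by_cases hcase : ∀ g ∈ H, ∀ g' ∈ H, key g = key g' → (a g).1 = (a g').1
  · -- finitely many slopes
    refine locAb_of_finSlopes S hS hy ?_
    have hfinite : {σ : ℚ | ∃ g ∈ H, (a g).1 = σ}.Finite := by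
      have h1 : ∀ c : α, ∃ σ : ℚ, ∀ g ∈ H, key g = c → (a g).1 = σ := by
        intro c
        by_cases hc : ∃ g ∈ H, key g = c
        · obtain ⟨g, hg, hgc⟩ := hc
          exact ⟨(a g).1, fun g' hg' hgc' => hcase g' hg' g hg (hgc'.trans hgc.symm)⟩
        · exact ⟨0, fun g hg hgc => absurd ⟨g, hg, hgc⟩ hc⟩
      choose σ hσ using h1
      refine (Set.finite_range σ).subset ?_
      rintro _ ⟨g, hg, rfl⟩
      exact ⟨key g, (hσ (key g) g hg rfl).symm⟩
    refine ⟨hfinite.toFinset, fun g hg b hb => ?_⟩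
    rw [Set.Finite.mem_toFinset]
    exact ⟨g, hg, by rw [Germ.unique hy (ha g hg).2 hb]⟩
  · push Not at hcase
    obtain ⟨g1, hg1, g2, hg2, hk, hne⟩ := hcase
    obtain ⟨ρ, hρ⟩ := exists_rat hy (ha g1 hg1).2 (ha g2 hg2).2 hne (hkey g1 hg1 g2 hg2 hk)
    -- the primes of the slopes
    set P0 : Finset ℕ := A.biUnion fun c => c.1.num.natAbs.primeFactors ∪ c.1.den.primeFactors with hP0
    have hP0p : ∀ p ∈ P0, p.Prime := by
      intro p hp
      obtain ⟨c, _, hc⟩ := Finset.mem_biUnion.1 hp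
      rcases Finset.mem_union.1 hc with hc | hc
      · exact Nat.prime_of_mem_primeFactors hc
      · exact Nat.prime_of_mem_primeFactors hc
    have hout : ∀ p : ℕ, p.Prime → p ∉ P0 → ∀ g ∈ H, padicValRat p (a g).1 = 0 := by
      intro p hp hpP g hg
      have hA : ∀ c ∈ A, padicValRat p c.1 = 0 := by
        intro c hc
        have h1 : p ∉ c.1.num.natAbs.primeFactors ∪ c.1.den.primeFactors := fun h =>
          hpP (Finset.mem_biUnion.2 ⟨c, hc, h⟩)
        rw [Finset.mem_union, not_or] at h1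
        have hnum : c.1.num.natAbs ≠ 0 := by
          rw [Int.natAbs_ne_zero]
          exact (Rat.num_pos.2 (hd.slope c hc)).ne'
        rw [padicValRat, padicValInt, padicValNat.eq_zero_of_not_dvd, padicValNat.eq_zero_of_not_dvd]
        · simp
        · intro h
          exact h1.2 (Nat.mem_primeFactors.2 ⟨hp, h, c.1.den_nz⟩)
        · intro h
          exact h1.1 (Nat.mem_primeFactors.2 ⟨hp, h, hnum⟩)
      obtain ⟨l, hl, rfl⟩ := list_of_closure hg
      have h1 := val_word hd hy p hp l hl (one_mem _) (Germ.one (x := y))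
        (b := a l.prod) (by rw [mul_one]; exact (ha _ hg).2)
      have h2 : ∑ c ∈ A, |padicValRat p c.1| = 0 :=
        Finset.sum_eq_zero fun c hc => by rw [hA c hc, abs_zero]
      rw [h2, mul_zero] at h1
      have h3 : padicValRat p (1 : ℚ) = 0 := by
        have : Fact p.Prime := ⟨hp⟩
        exact padicValRat.one
      simp only [h3, sub_zero] at h1
      exact abs_eq_zero.1 (le_antisymm h1 (abs_nonneg _))
    -- the bounds
    have hb : ∀ p : ℕ, ∃ C : ℤ, p ∈ P0 → ¬ RatAt p y ρ → ∀ g ∈ H, |padicValRat p (a g).1| ≤ C := by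
      intro p
      by_cases hp : p ∈ P0 ∧ ¬ RatAt p y ρ
      · obtain ⟨C, hC⟩ := bounded hd hy hU hm hfin hρ (hP0p p hp.1) hp.2
        exact ⟨C, fun _ _ g hg => hC g hg _ (ha g hg).2⟩
      · exact ⟨0, fun h1 h2 => absurd ⟨h1, h2⟩ hp⟩
    choose C hC using hb
    -- the vector of the bounded valuations
    let code : Equiv.Perm ℤ → ({p // p ∈ P0} → ℤ) := fun g p =>
      if RatAt p.1 y ρ then 0 else padicValRat p.1 (a g).1
    have hcode : {v | ∃ g ∈ H, code g = v}.Finite := by
      have h1 : {f : {p // p ∈ P0} → ℤ | ∀ p, f p ∈ Set.Icc (-|C p.1|) |C p.1|}.Finite :=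
        Set.Finite.pi' fun p => Set.finite_Icc _ _
      refine h1.subset ?_
      rintro _ ⟨g, hg, rfl⟩ p
      show -|C p.1| ≤ code g p ∧ code g p ≤ |C p.1|
      rw [← abs_le]
      by_cases hp : RatAt p.1 y ρ
      · simp only [code, if_pos hp, abs_zero]
        exact abs_nonneg _
      · simp only [code, if_neg hp]
        exact (hC p.1 p.2 hp g hg).trans (le_abs_self _)
    -- representatives
    have hrep : ∀ v : {p // p ∈ P0} → ℤ, ∃ g : Equiv.Perm ℤ, (∃ g ∈ H, code g = v) → g ∈ H ∧ code g = v := by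
      intro v
      by_cases hv : ∃ g ∈ H, code g = v
      · obtain ⟨g, hg⟩ := hv
        exact ⟨g, fun _ => hg⟩
      · exact ⟨1, fun h => absurd h hv⟩
    choose rep hrep using hrep
    set Z : Finset ℕ := P0.filter fun p => RatAt p y ρ with hZ
    set m' : ℕ := ∏ p ∈ Z, p with hm'
    have hm'0 : 0 < m' := Finset.prod_pos fun p hp => (hP0p p (Finset.mem_filter.1 hp).1).pos
    have hrm' : RatAt m' y ρ := RatAt.prod hy Z (fun p hp => hP0p p (Finset.mem_filter.1 hp).1)
      fun p hp => (Finset.mem_filter.1 hp).2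
    refine locAb_mixed (m := m') hm'0 S hS hy (hcode.toFinset.image fun v => (a (rep v)).1) ?_ ?_
    · intro g hg b hb
      have hab : a g = b := Germ.unique hy (ha g hg).2 hb
      obtain ⟨hrH, hrc⟩ := hrep (code g) ⟨g, hg, rfl⟩
      set g0 := rep (code g) with hg0
      have hpos := (ha g hg).1
      have hpos0 := (ha g0 hrH).1
      set r : ℚ := (a g).1 / (a g0).1 with hr
      have hr0 : 0 < r := div_pos hpos hpos0
      have hprime : ∀ p : ℕ, p.Prime → (p ∣ r.num.natAbs ∨ p ∣ r.den) → p ∣ m' := by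
        intro p hp hpr
        have : Fact p.Prime := ⟨hp⟩
        have h1 := val_ne_zero hp hr0 hpr
        rw [hr, padicValRat.div hpos.ne' hpos0.ne'] at h1
        by_cases hpP : p ∈ P0
        · by_cases hpz : RatAt p y ρ
          · exact Finset.dvd_prod_of_mem _ (Finset.mem_filter.2 ⟨hpP, hpz⟩)
          · exfalso
            have h2 := congrFun hrc ⟨p, hpP⟩
            simp only [code, if_neg hpz] at h2
            exact h1 (by rw [h2, sub_self])
        · exfalso
          exact h1 (by rw [hout p hp hpP g hg, hout p hp hpP g0 hrH, sub_self])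
      have hnum : 0 < r.num.natAbs := Int.natAbs_pos.2 (Rat.num_pos.2 hr0).ne'
      have hu : r.num.natAbs ∣ m' ^ r.num.natAbs :=
        dvd_pow_self hnum hm'0 fun p hp hpu => hprime p hp (Or.inl hpu)
      have hv : r.den ∣ m' ^ r.den :=
        dvd_pow_self r.den_pos hm'0 fun p hp hpu => hprime p hp (Or.inr hpu)
      refine ⟨(a g0).1, Finset.mem_image.2 ⟨code g, ?_, rfl⟩, r.num.natAbs, r.den,
        r.num.natAbs + r.den, ?_, ?_, ?_⟩
      · rw [Set.Finite.mem_toFinset]
        exact ⟨g, hg, rfl⟩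
      · rw [pow_add]
        exact Dvd.dvd.mul_right hu _
      · rw [pow_add]
        exact Dvd.dvd.mul_left hv _
      · rw [← hab]
        have h1 : r * (r.den : ℚ) = r.num := Rat.mul_den_eq_num r
        have h2 : ((r.num.natAbs : ℕ) : ℚ) = (r.num : ℚ) := by
          have h3 : ((r.num.natAbs : ℕ) : ℤ) = r.num := Int.natAbs_of_nonneg (Rat.num_pos.2 hr0).le
          rw [← Int.cast_natCast, h3]
        have h4 : (a g).1 = (a g0).1 * r := by
          rw [hr]
          field_simp
        rw [h2, ← h1, h4]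
        ring
    · refine ⟨α, hα, key, fun g hg g' hg' hgg => ?_⟩
      have h1 := rat_eq hy hm hρ (ha g hg).2 (ha g' hg').2 (hkey g hg g' hg' hgg)
      exact rx_of_eq hy hrm' (ha g hg).2 (ha g' hg').2 h1

end Pool.Agent.LgpF
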