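import Pool.Agent.LgpE.Syn

/-!
# Almost periodic points with a finite image in the `m`-adic integers

If `y` is almost periodic and its orbit has a finite image in the `m`-adic integers for one `m ≥ 2`, then the germs
along the orbit of `y` form a virtually abelian groupoid. No hypothesis on the slopes or on the growth is needed.
-/

namespace Pool.Agent.LgpF

open Pool.Agent.CTm Pool.Agent.Grm Pool.Agent.Lgp Pool.Agent.LgpE Filter Nat

variable {S : Set (Equiv.Perm ℤ)} {M : ℕ} {A : Finset (ℚ × ℚ)} {y : ℕ → ℤ}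

/-- the image of `y` in the `m`-adic integers is the rational number `ρ` -/
def RatAt (m : ℕ) (y : ℕ → ℤ) (ρ : ℚ) : Prop :=
  ∀ j : ℕ, ∃ i : ℕ, ∀ n : ℤ, ((i ! : ℕ) : ℤ) ∣ n - y i → ((m ^ j : ℕ) : ℤ) ∣ (ρ.den : ℤ) * n - ρ.num

theorem pow_dvd_zero {m : ℕ} (hm : 2 ≤ m) {t : ℤ} (h : ∀ j : ℕ, ((m ^ j : ℕ) : ℤ) ∣ t) : t = 0 := by
  by_contra hne
  have h1 := h t.natAbs
  have h2 := Int.natAbs_dvd_natAbs.2 h1
  rw [Int.natAbs_natCast] at h2
  have h3 := Nat.le_of_dvd (Int.natAbs_pos.2 hne) h2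
  have h4 : t.natAbs < m ^ t.natAbs := Nat.lt_pow_self (by omega)
  omega

/-- the form of `ρ.den n - ρ.num` -/
theorem den_sub (ρ : ℚ) (n : ℤ) : (((ρ.den : ℤ) * n - ρ.num : ℤ) : ℚ) = ρ.den * ((n : ℚ) - ρ) := by
  have h1 : ρ * (ρ.den : ℚ) = ρ.num := Rat.mul_den_eq_num ρ
  push_cast
  rw [← h1]
  ring

/-- two germs with the same image of `y` and different slopes -/
theorem exists_rat (hy : Pro y) {m : ℕ} {g g' : Equiv.Perm ℤ} {a b : ℚ × ℚ} (ha : Germ y g a)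
    (hb : Germ y g' b) (hab : a.1 ≠ b.1) (h : RX 1 m y g g') : ∃ ρ : ℚ, RatAt m y ρ := by
  set c : ℚ := a.1 - b.1 with hc
  have hc0 : c ≠ 0 := sub_ne_zero.2 hab
  set ρ : ℚ := (b.2 - a.2) / c with hρ
  refine ⟨ρ, ?_⟩
  have hcn : 0 < c.num.natAbs := Int.natAbs_pos.2 (Rat.num_ne_zero.2 hc0)
  obtain ⟨E, hE⟩ := dvd_lemma m hcn
  obtain ⟨ia, hia⟩ := ha.deep hy
  obtain ⟨ib, hib⟩ := hb.deep hy
  intro j
  obtain ⟨i, hi⟩ := h (j + E)
  set I := max i (max ia ib) with hI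
  refine ⟨I, fun n hn => ?_⟩
  have e1 := hi n (pro_deep hy (le_max_left _ _) hn)
  have e2 := hia I ((le_max_left _ _).trans (le_max_right _ _)) n hn
  have e3 := hib I ((le_max_right _ _).trans (le_max_right _ _)) n hn
  rw [one_mul] at e1
  refine hE j _ ?_
  have h1 : c * (c.den : ℚ) = c.num := Rat.mul_den_eq_num c
  have e4 : (c.num : ℤ) * ((ρ.den : ℤ) * n - ρ.num) = (c.den : ℤ) * ρ.den * (g n - g' n) := by
    have e5 : (((c.num : ℤ) * ((ρ.den : ℤ) * n - ρ.num) : ℤ) : ℚ) =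
        (((c.den : ℤ) * ρ.den * (g n - g' n) : ℤ) : ℚ) := by
      rw [Int.cast_mul, den_sub, ← h1]
      push_cast
      rw [e2, e3]
      have e6 : c * ρ = b.2 - a.2 := by
        rw [hρ]
        field_simp
      have e7 : a.1 = c + b.1 := by rw [hc]; ring
      rw [e7]
      linear_combination (-(c.den : ℚ) * ρ.den) * e6
    exact_mod_cast e5
  have e8 : ((m ^ (j + E) : ℕ) : ℤ) ∣ (c.num : ℤ) * ((ρ.den : ℤ) * n - ρ.num) := by
    rw [e4]
    exact Dvd.dvd.mul_left e1 _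
  rcases Int.natAbs_eq c.num with h2 | h2
  · rw [← h2]
    exact e8
  · have h3 : ((c.num.natAbs : ℕ) : ℤ) = -c.num := by omega
    rw [h3, neg_mul]
    exact e8.neg_right

/-- the images of two orbit points are rational; if they agree in the `m`-adic integers they are equal -/
theorem rat_eq (hy : Pro y) {m : ℕ} (hm : 2 ≤ m) {ρ : ℚ} (hρ : RatAt m y ρ) {g g' : Equiv.Perm ℤ}
    {a b : ℚ × ℚ} (ha : Germ y g a) (hb : Germ y g' b) (h : RX 1 m y g g') :
    a.1 * ρ + a.2 = b.1 * ρ + b.2 := by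
  set c : ℚ := a.1 - b.1 with hc
  set δ : ℚ := (a.1 * ρ + a.2) - (b.1 * ρ + b.2) with hδ
  have h1 : c * (c.den : ℚ) = c.num := Rat.mul_den_eq_num c
  obtain ⟨ia, hia⟩ := ha.deep hy
  obtain ⟨ib, hib⟩ := hb.deep hy
  -- the integer `δ * c.den * ρ.den`
  have key : ∀ I : ℕ, max ia ib ≤ I → ∀ n : ℤ, ((I ! : ℕ) : ℤ) ∣ n - y I →
      δ * (c.den * ρ.den) = (((c.den : ℤ) * ρ.den * (g n - g' n) -
        c.num * ((ρ.den : ℤ) * n - ρ.num) : ℤ) : ℚ) := by
    intro I hI n hn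
    have e2 := hia I ((le_max_left _ _).trans hI) n hn
    have e3 := hib I ((le_max_right _ _).trans hI) n hn
    rw [Int.cast_sub, Int.cast_mul (c.num) _, den_sub, ← h1]
    push_cast
    rw [e2, e3, hδ, hc]
    ring
  set t : ℤ := (c.den : ℤ) * ρ.den * (g (y (max ia ib)) - g' (y (max ia ib))) -
        c.num * ((ρ.den : ℤ) * (y (max ia ib)) - ρ.num) with ht
  have ht1 : δ * (c.den * ρ.den) = (t : ℚ) := key (max ia ib) le_rfl _ (by simp)
  have ht0 : t = 0 := by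
    refine pow_dvd_zero hm fun j => ?_
    obtain ⟨i, hi⟩ := h j
    obtain ⟨i', hi'⟩ := hρ j
    set I := max (max ia ib) (max i i') with hI
    have hn : ((I ! : ℕ) : ℤ) ∣ y I - y I := by simp
    have e1 := key I (le_max_left _ _) (y I) hn
    rw [ht1] at e1
    have e2 : t = (c.den : ℤ) * ρ.den * (g (y I) - g' (y I)) - c.num * ((ρ.den : ℤ) * (y I) - ρ.num) := by
      exact_mod_cast e1
    rw [e2]
    have e3 := hi _ (pro_deep hy ((le_max_left _ _).trans (le_max_right _ _)) hn)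
    have e4 := hi' _ (pro_deep hy ((le_max_right _ _).trans (le_max_right _ _)) hn)
    rw [one_mul] at e3
    exact dvd_sub (Dvd.dvd.mul_left e3 _) (Dvd.dvd.mul_left e4 _)
  rw [ht0, Int.cast_zero] at ht1
  have hd1 : (c.den : ℚ) ≠ 0 := by exact_mod_cast c.den_nz
  have hd2 : (ρ.den : ℚ) ≠ 0 := by exact_mod_cast ρ.den_nz
  rcases mul_eq_zero.1 ht1 with h3 | h3
  · rw [hδ] at h3
    linarith
  · exact absurd h3 (mul_ne_zero hd1 hd2)

/-- conversely -/
theorem rx_of_eq (hy : Pro y) {m : ℕ} {ρ : ℚ} (hρ : RatAt m y ρ) {g g' : Equiv.Perm ℤ}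
    {a b : ℚ × ℚ} (ha : Germ y g a) (hb : Germ y g' b) (h : a.1 * ρ + a.2 = b.1 * ρ + b.2) :
    RX 1 m y g g' := by
  set c : ℚ := a.1 - b.1 with hc
  have h1 : c * (c.den : ℚ) = c.num := Rat.mul_den_eq_num c
  obtain ⟨ia, hia⟩ := ha.deep hy
  obtain ⟨ib, hib⟩ := hb.deep hy
  obtain ⟨E, hE⟩ := dvd_lemma m (Nat.mul_pos c.den_pos ρ.den_pos)
  intro j
  obtain ⟨i, hi⟩ := hρ (j + E)
  set I := max i (max ia ib) with hI
  refine ⟨I, fun n hn => ?_⟩
  have e1 := hi n (pro_deep hy (le_max_left _ _) hn)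
  have e2 := hia I ((le_max_left _ _).trans (le_max_right _ _)) n hn
  have e3 := hib I ((le_max_right _ _).trans (le_max_right _ _)) n hn
  rw [one_mul]
  refine hE j _ ?_
  have e4 : ((c.den * ρ.den : ℕ) : ℤ) * (g n - g' n) = c.num * ((ρ.den : ℤ) * n - ρ.num) := by
    have e5 : ((((c.den * ρ.den : ℕ) : ℤ) * (g n - g' n) : ℤ) : ℚ) =
        ((c.num * ((ρ.den : ℤ) * n - ρ.num) : ℤ) : ℚ) := by
      rw [Int.cast_mul (c.num) _, den_sub, ← h1]
      push_cast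
      rw [e2, e3]
      have e6 : b.2 = a.1 * ρ + a.2 - b.1 * ρ := by linarith
      rw [e6, hc]
      ring
    exact_mod_cast e5
  rw [e4]
  exact Dvd.dvd.mul_left e1 _

theorem RatAt.mul {m₁ m₂ : ℕ} (hcop : Nat.Coprime m₁ m₂) (hy : Pro y) {ρ : ℚ} (h₁ : RatAt m₁ y ρ)
    (h₂ : RatAt m₂ y ρ) : RatAt (m₁ * m₂) y ρ := by
  intro j
  obtain ⟨i, hi⟩ := h₁ j
  obtain ⟨i', hi'⟩ := h₂ j
  refine ⟨max i i', fun n hn => ?_⟩
  have e1 := hi n (pro_deep hy (le_max_left _ _) hn)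
  have e2 := hi' n (pro_deep hy (le_max_right _ _) hn)
  have h3 : IsCoprime ((m₁ ^ j : ℕ) : ℤ) ((m₂ ^ j : ℕ) : ℤ) :=
    Nat.isCoprime_iff_coprime.2 (Nat.Coprime.pow _ _ hcop)
  have h4 := h3.mul_dvd e1 e2
  rw [← Nat.cast_mul, ← mul_pow] at h4
  exact h4

theorem RatAt.one {ρ : ℚ} : RatAt 1 y ρ := fun j => ⟨0, fun n _ => by simp⟩

theorem RatAt.prod (hy : Pro y) {ρ : ℚ} (Z : Finset ℕ) (hZ : ∀ p ∈ Z, p.Prime)
    (h : ∀ p ∈ Z, RatAt p y ρ) : RatAt (∏ p ∈ Z, p) y ρ := by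
  classical
  induction Z using Finset.induction_on with
  | empty => simpa using RatAt.one
  | insert p Z hp ih =>
    rw [Finset.prod_insert hp]
    refine RatAt.mul ?_ hy (h p (Finset.mem_insert_self _ _))
      (ih (fun q hq => hZ q (Finset.mem_insert_of_mem hq)) fun q hq => h q (Finset.mem_insert_of_mem hq))
    refine Nat.Coprime.prod_right fun q hq => ?_
    have hpp := hZ p (Finset.mem_insert_self _ _)
    have hqq := hZ q (Finset.mem_insert_of_mem hq)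
    rw [Nat.coprime_primes hpp hqq]
    rintro rfl
    exact hp hq

/-- the slopes change by a bounded amount under a fixed word -/
theorem val_word (hd : Data S M A) (hy : Pro y) (p : ℕ) (hp : p.Prime) (l : List (Equiv.Perm ℤ))
    (hl : ∀ x ∈ l, x ∈ S ∨ x⁻¹ ∈ S) {g : Equiv.Perm ℤ} (hg : g ∈ Subgroup.closure S) {a b : ℚ × ℚ}
    (ha : Germ y g a) (hb : Germ y (l.prod * g) b) :
    |padicValRat p b.1 - padicValRat p a.1| ≤ l.length * ∑ c ∈ A, |padicValRat p c.1| := by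
  have : Fact p.Prime := ⟨hp⟩
  induction l generalizing b with
  | nil =>
    rw [List.prod_nil, one_mul] at hb
    rw [Germ.unique hy ha hb]
    simp
  | cons s l ih =>
    have hl' : ∀ x ∈ l, x ∈ S ∨ x⁻¹ ∈ S := fun x hx => hl x (by simp [hx])
    obtain ⟨c, hc0, hc⟩ := exists_germ hd hy (mul_mem (list_mem hl') hg)
    obtain ⟨d, hd1, hd2⟩ := Germ.step hy hd hc (hl s (by simp))
    rw [List.prod_cons, mul_assoc] at hb
    have e1 := Germ.unique hy hb hd2
    have e2 := ih hl' hc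
    have e3 : padicValRat p b.1 = padicValRat p d.1 + padicValRat p c.1 := by
      rw [e1]
      exact padicValRat.mul (hd.slope d hd1).ne' hc0.ne'
    have e4 : |padicValRat p d.1| ≤ ∑ c ∈ A, |padicValRat p c.1| :=
      Finset.single_le_sum (f := fun c : ℚ × ℚ => |padicValRat p c.1|) (fun c _ => abs_nonneg _) hd1
    rw [e3]
    have e5 : padicValRat p d.1 + padicValRat p c.1 - padicValRat p a.1 =
        padicValRat p d.1 + (padicValRat p c.1 - padicValRat p a.1) := by ring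
    rw [e5]
    refine (abs_add_le _ _).trans ?_
    push_cast [List.length_cons]
    linarith

/-- returns, with equality in the `m`-adic integers -/
theorem returns (hd : Data S M A) (hy : Pro y)
    (hU : ∀ j : ℕ, ∃ F : Finset (Equiv.Perm ℤ), (∀ t ∈ F, t ∈ Subgroup.closure S) ∧
      ∀ g ∈ Subgroup.closure S, ∃ t ∈ F, ∃ i : ℕ, ∀ n : ℤ,
        ((i ! : ℕ) : ℤ) ∣ n - y i → ((j ! : ℕ) : ℤ) ∣ t (g n) - y j)
    {m : ℕ} (hm : 0 < m) (hfin : FinKey m (Subgroup.closure S) y) {X : ℕ} (hX : 0 < X) :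
    ∃ P : Finset (Equiv.Perm ℤ), (∀ p ∈ P, p ∈ Subgroup.closure S) ∧
      ∀ g ∈ Subgroup.closure S, ∃ p ∈ P, RX X m y (p * g) 1 := by
  classical
  obtain ⟨α, hα, key, hkey⟩ := hfin.rx hd hy X hX
  have : Fintype α := Fintype.ofFinite α
  have hsep : ∀ c : α, ∃ J : ℕ, ∀ g ∈ Subgroup.closure S, key g = c →
      (∃ i : ℕ, ∀ n : ℤ, ((i ! : ℕ) : ℤ) ∣ n - y i →
        ((X * m ^ J : ℕ) : ℤ) ∣ g n - (1 : Equiv.Perm ℤ) n) → RX X m y g 1 := by
    intro c
    by_cases hex : ∃ g ∈ Subgroup.closure S, key g = c ∧ ¬ RX X m y g 1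
    · obtain ⟨g1, hg1, hk1, hn1⟩ := hex
      unfold RX at hn1
      push Not at hn1
      obtain ⟨J, hJ⟩ := hn1
      refine ⟨J, fun g hg hk hdiv => ?_⟩
      exfalso
      obtain ⟨i, hi⟩ := hdiv
      obtain ⟨i', hi'⟩ := hkey g1 hg1 g hg (hk1.trans hk.symm) J
      obtain ⟨n, hn, hnot⟩ := hJ (max i i')
      refine hnot ?_
      have e1 : g1 n - (1 : Equiv.Perm ℤ) n = (g1 n - g n) + (g n - (1 : Equiv.Perm ℤ) n) := by ring
      rw [e1]
      exact dvd_add (hi' n (pro_deep hy (le_max_right _ _) hn))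
        (hi n (pro_deep hy (le_max_left _ _) hn))
    · push Not at hex
      exact ⟨0, fun g hg hk _ => hex g hg hk⟩
  choose J hJ using hsep
  set Jm := Finset.univ.sup J with hJm
  set j := X * m ^ Jm with hj
  have hj0 : 0 < j := Nat.mul_pos hX (Nat.pow_pos hm)
  obtain ⟨P, hP, hP2⟩ := hU j
  refine ⟨P, hP, fun g hg => ?_⟩
  obtain ⟨p, hp, i, hi⟩ := hP2 g hg
  refine ⟨p, hp, hJ (key (p * g)) (p * g) (mul_mem (hP p hp) hg) rfl ⟨max i j, fun n hn => ?_⟩⟩
  have e1 := hi n (pro_deep hy (le_max_left _ _) hn)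
  have e2 := pro_deep hy (le_max_right i j) hn
  have e3 : (p * g) n - (1 : Equiv.Perm ℤ) n = (p (g n) - y j) - (n - y j) := by
    rw [Equiv.Perm.mul_apply, Equiv.Perm.one_apply]
    ring
  have e4 : ((j ! : ℕ) : ℤ) ∣ (p * g) n - (1 : Equiv.Perm ℤ) n := by
    rw [e3]
    exact dvd_sub e1 e2
  refine dvd_trans (Int.natCast_dvd_natCast.2 ?_) e4
  refine (mul_dvd_mul_left X (pow_dvd_pow m (Finset.le_sup (Finset.mem_univ _)))).trans ?_
  exact Nat.dvd_factorial hj0 le_rfl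

/-- integers which are congruent modulo `p ^ j` and not divisible by `p ^ j` have the same valuation -/
theorem val_int_eq {p : ℕ} (hp : p.Prime) {j : ℕ} {x x' : ℤ} (h : ((p ^ j : ℕ) : ℤ) ∣ x' - x)
    (hx : ¬ ((p ^ j : ℕ) : ℤ) ∣ x) : padicValRat p (x' : ℚ) = padicValRat p (x : ℚ) := by
  have : Fact p.Prime := ⟨hp⟩
  have hx' : ¬ ((p ^ j : ℕ) : ℤ) ∣ x' := by
    intro h1
    refine hx ?_
    have e : x = x' - (x' - x) := by ring
    rw [e]
    exact dvd_sub h1 h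
  have h0 : x ≠ 0 := fun h => hx (by rw [h]; exact dvd_zero _)
  have h0' : x' ≠ 0 := fun h => hx' (by rw [h]; exact dvd_zero _)
  rw [padicValRat.of_int, padicValRat.of_int]
  have hlt : padicValInt p x < j := by
    by_contra hge
    refine hx ?_
    have h1 := (padicValInt_dvd_iff (p := p) j x).2 (Or.inr (not_lt.1 hge))
    push_cast
    exact h1
  have hlt' : padicValInt p x' < j := by
    by_contra hge
    refine hx' ?_
    have h1 := (padicValInt_dvd_iff (p := p) j x').2 (Or.inr (not_lt.1 hge))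
    push_cast
    exact h1
  have hpd : ∀ k : ℕ, k ≤ j → ((p : ℤ) ^ k) ∣ x' - x := fun k hk => by
    refine (pow_dvd_pow (p : ℤ) hk).trans ?_
    push_cast at h
    exact h
  congr 1
  refine le_antisymm ?_ ?_
  · have h1 : ((p : ℤ) ^ (padicValInt p x')) ∣ x' := padicValInt_dvd x'
    have h2 : ((p : ℤ) ^ (padicValInt p x')) ∣ x := by
      have e : x = x' - (x' - x) := by ring
      rw [e]
      exact dvd_sub h1 (hpd _ hlt'.le)
    rcases (padicValInt_dvd_iff (p := p) _ x).1 h2 with h3 | h3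
    · exact absurd h3 h0
    · exact h3
  · have h1 : ((p : ℤ) ^ (padicValInt p x)) ∣ x := padicValInt_dvd x
    have h2 : ((p : ℤ) ^ (padicValInt p x)) ∣ x' := by
      have e : x' = x + (x' - x) := by ring
      rw [e]
      exact dvd_add h1 (hpd _ hlt.le)
    rcases (padicValInt_dvd_iff (p := p) _ x').1 h2 with h3 | h3
    · exact absurd h3 h0'
    · exact h3

/-- a prime at which `y` is not the rational number `ρ`: the slopes have bounded valuation -/
theorem bounded (hd : Data S M A) (hy : Pro y)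
    (hU : ∀ j : ℕ, ∃ F : Finset (Equiv.Perm ℤ), (∀ t ∈ F, t ∈ Subgroup.closure S) ∧
      ∀ g ∈ Subgroup.closure S, ∃ t ∈ F, ∃ i : ℕ, ∀ n : ℤ,
        ((i ! : ℕ) : ℤ) ∣ n - y i → ((j ! : ℕ) : ℤ) ∣ t (g n) - y j)
    {m : ℕ} (hm : 2 ≤ m) (hfin : FinKey m (Subgroup.closure S) y) {ρ : ℚ} (hρ : RatAt m y ρ)
    {p : ℕ} (hp : p.Prime) (hpn : ¬ RatAt p y ρ) :
    ∃ C : ℤ, ∀ g ∈ Subgroup.closure S, ∀ a : ℚ × ℚ, Germ y g a → |padicValRat p a.1| ≤ C := by
  classical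
  have : Fact p.Prime := ⟨hp⟩
  unfold RatAt at hpn
  push Not at hpn
  obtain ⟨j0, hj0⟩ := hpn
  obtain ⟨P, hP, hP2⟩ := returns hd hy hU (by omega : 0 < m) hfin (X := p ^ j0) (Nat.pow_pos hp.pos)
  have hw : ∀ k : Equiv.Perm ℤ, ∃ C : ℤ, 0 ≤ C ∧ (k ∈ Subgroup.closure S →
      ∀ g ∈ Subgroup.closure S, ∀ a b : ℚ × ℚ, Germ y g a → Germ y (k * g) b →
        |padicValRat p b.1 - padicValRat p a.1| ≤ C) := by
    intro k
    by_cases hk : k ∈ Subgroup.closure S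
    · obtain ⟨l, hl, rfl⟩ := list_of_closure hk
      refine ⟨l.length * ∑ c ∈ A, |padicValRat p c.1|, ?_, fun _ g hg a b ha hb =>
        val_word hd hy p hp l hl hg ha hb⟩
      have h0 : 0 ≤ ∑ c ∈ A, |padicValRat p c.1| := Finset.sum_nonneg fun c _ => abs_nonneg _
      positivity
    · exact ⟨0, le_rfl, fun h => absurd h hk⟩
  choose C hC0 hC using hw
  refine ⟨∑ k ∈ P, C k, fun g hg a ha => ?_⟩
  obtain ⟨k, hk, hkR⟩ := hP2 g hg
  obtain ⟨b, hb0, hb⟩ := exists_germ hd hy (mul_mem (hP k hk) hg)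
  have e1 := hC k (hP k hk) g hg a b ha hb
  have e2 : C k ≤ ∑ k ∈ P, C k := Finset.single_le_sum (fun k _ => hC0 k) hk
  -- the slope of `k g` has valuation `0`
  have e3 : b.1 * ρ + b.2 = ρ := by
    have h1 := rat_eq hy hm hρ hb (Germ.one (x := y)) (hkR.mono (one_dvd _))
    simpa using h1
  have e4 : padicValRat p b.1 = 0 := by
    obtain ⟨ib, hib⟩ := hb.deep hy
    obtain ⟨i, hi⟩ := hkR 0
    set I := max ib i with hI
    obtain ⟨n, hn, hnot⟩ := hj0 I
    have f1 := hib I (le_max_left _ _) n hn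
    have f2 := hi n (pro_deep hy (le_max_right _ _) hn)
    rw [pow_zero, mul_one, Equiv.Perm.one_apply] at f2
    have f3 : ((p ^ j0 : ℕ) : ℤ) ∣ ((ρ.den : ℤ) * ((k * g) n) - ρ.num) - ((ρ.den : ℤ) * n - ρ.num) := by
      have e : ((ρ.den : ℤ) * ((k * g) n) - ρ.num) - ((ρ.den : ℤ) * n - ρ.num) =
          (ρ.den : ℤ) * ((k * g) n - n) := by ring
      rw [e]
      exact Dvd.dvd.mul_left f2 _
    have f4 := val_int_eq hp f3 hnot
    have f5 : (((ρ.den : ℤ) * ((k * g) n) - ρ.num : ℤ) : ℚ) =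
        b.1 * (((ρ.den : ℤ) * n - ρ.num : ℤ) : ℚ) := by
      rw [den_sub, den_sub, f1]
      have e6 : b.2 = ρ - b.1 * ρ := by linarith
      rw [e6]
      ring
    have f6 : (((ρ.den : ℤ) * n - ρ.num : ℤ) : ℚ) ≠ 0 := by
      intro h
      refine hnot ?_
      have h' : (ρ.den : ℤ) * n - ρ.num = 0 := by exact_mod_cast h
      rw [h']
      exact dvd_zero _
    rw [f5, padicValRat.mul hb0.ne' f6] at f4
    linarith
  rw [e4, zero_sub, abs_neg] at e1
  linarith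

end Pool.Agent.LgpF
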